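import Pool.Agent.Q123.ZK.Girth

/-!
Problem MP_97687e_co (girth conjecture), for bipartite graphs with the vertex classes `C` (rows) and
`Fin n` (columns), given by a 0/1 matrix with pairwise different rows which are closed under a
Boolean operation `f`.
-/

set_option autoImplicit false

open Finset

namespace Pool.Agent.Results.MP_97687e_co.BooleanRows

/-- Boolean operations of arity `k`. -/
abbrev Op (k : ℕ) := (Fin k → ZMod 2) → ZMod 2

/-- The set `C` of rows is closed under the operation `f`, applied coordinatewise. -/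
def ClosedUnder {n k : ℕ} (f : Op k) (C : Finset (Fin n → ZMod 2)) : Prop :=
  ∀ w : Fin k → Fin n → ZMod 2, (∀ i, w i ∈ C) → (fun j => f (fun i => w i j)) ∈ C

/-- The number of ones: the number of edges of the bipartite graph. -/
def edges {n : ℕ} (C : Finset (Fin n → ZMod 2)) : ℕ :=
  ∑ w ∈ C, (univ.filter fun j => w j = 1).card

/-- The bipartite graph has a cycle of length `2 l`: `l` different rows `w i` and `l` different
columns `j i`, with ones of the row `w i` in the columns `j i` and `j (i + 1)`. -/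
def HasCycle {n : ℕ} (l : ℕ) (C : Finset (Fin n → ZMod 2)) : Prop :=
  ∃ (w : ZMod l → Fin n → ZMod 2) (j : ZMod l → Fin n), Function.Injective w ∧
    Function.Injective j ∧ (∀ i, w i ∈ C) ∧ ∀ i, w i (j i) = 1 ∧ w i (j (i + 1)) = 1

/-- `f` is a conjunction of one or more variables, or the constant 0. -/
def IsMeet {k : ℕ} (f : Op k) : Prop :=
  (∀ x, f x = 0) ∨ ∃ s : Finset (Fin k), s.Nonempty ∧ ∀ x, f x = ∏ i ∈ s, x i

/-- The girth conjecture for the parameter `m` and the class `P` of bipartite graphs: for all large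
`n` there is a graph in `P` with at most `n` vertices, with no cycle of length at most `2 m`, and
with at least `c n ^ (1 + 1 / m)` edges. -/
def GirthConjecture (P : ∀ a : ℕ, Finset (Fin a → ZMod 2) → Prop) (m : ℕ) : Prop :=
  ∃ c : ℝ, 0 < c ∧ ∃ N : ℕ, ∀ n : ℕ, N ≤ n → ∃ (a : ℕ) (C : Finset (Fin a → ZMod 2)),
    P a C ∧ C.card + a ≤ n ∧ (∀ l, 2 ≤ l → l ≤ m → ¬ HasCycle l C) ∧
    c * (n : ℝ) ^ (1 + 1 / (m : ℝ)) ≤ edges C

theorem result :
    ∀ (k : ℕ) (f : Op k),
    -- (1) linear bound without cycles of length four, for all `f` which are not conjunctions of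
    -- variables or zero
    (¬ IsMeet f → ∀ (n : ℕ) (C : Finset (Fin n → ZMod 2)), ClosedUnder f C → ¬ HasCycle 2 C →
      edges C ≤ 64 * (C.card + n)) ∧
    -- (2) hence the girth conjecture fails for them, for all `m`
    (¬ IsMeet f → ∀ m, 2 ≤ m → ¬ GirthConjecture (fun _ C => ClosedUnder f C) m) ∧
    -- (3) for the other `f` it is equivalent to the one for all bipartite graphs
    (IsMeet f → ∀ m, 2 ≤ m → (GirthConjecture (fun _ C => ClosedUnder f C) m ↔
      GirthConjecture (fun _ _ => True) m)) ∧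
    -- (4) since each graph without four-cycles extends to a closed one with the same cycles
    (IsMeet f → ∀ (n : ℕ) (C : Finset (Fin n → ZMod 2)), ¬ HasCycle 2 C →
      ∃ D : Finset (Fin n → ZMod 2), C ⊆ D ∧ ClosedUnder f D ∧ D.card ≤ C.card + n + 1 ∧
        ∀ l, 2 ≤ l → (HasCycle l D ↔ HasCycle l C)) := by
  intro k f
  refine ⟨?_, ?_, ?_, ?_⟩
  · intro hf n C hC h
    exact Q123.ZK.girth_linear hf hC h
  · intro hf m hm
    exact Q123.ZK.girth_fails hf hm
  · intro hf m hm
    exact Q123.ZK.girth_iff hf hm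
  · intro hf n C h
    obtain ⟨D, h1, h2, h3, -, h5⟩ := Q123.ZK.girth_extend hf h
    exact ⟨D, h1, h2, h3, h5⟩

end Pool.Agent.Results.MP_97687e_co.BooleanRows
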