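import Pool.Agent.Q115.GX4

/-!
# The girth conjecture: extremal graphs are unions of few expanders of linear size

* (1) Fix `k ≥ 1`, `c > 0` and `ε > 0`. Every graph with `n` vertices (`n` large), girth greater
  than `2 k` and at least `c n ^ (1 + 1 / k)` edges has pairwise disjoint vertex sets `U`, each with
  at least `η n` vertices, which contain all but a fraction `ε` of the edges and such that each
  induced graph `G[U]` has all degrees between `η n ^ (1 / k)` and `η⁻¹ n ^ (1 / k)`, at least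
  `η n ^ (1 / k) |S|` edges between `S` and `U \ S` for all `S ⊆ U` with `2 |S| ≤ |U|`, and diameter
  at most `D`; the constants `η > 0` and `D` depend on `k`, `c` and `ε` only.
* (2) The girth conjecture for `k` holds if and only if for some `C` and all `d` there is a graph
  with girth greater than `2 k`, at most `C d ^ k` vertices, all degrees at most `C d`, diameter at
  most `C` and edge expansion at least `d`.
* (3) The decomposition (without the diameter) for all graphs in which every set `X` of vertices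
  spans at most `M |X| ^ (1 + α)` (ordered) adjacent pairs and which have at least
  `c n ^ (1 + α)` of them.

Proof: delete the edges at vertices of degree greater than `K n ^ α`, and take a partition of the
vertices minimising (edges between classes) + `β n ^ α ∑ log₂ (max (|class| / (θ n)) 1)`. A class
with at least `2 θ n` vertices cannot be split with profit, so it expands; the classes with fewer
vertices contain few edges by the upper bound. Balls of radius `k` in an expander of girth greater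
than `2 k` have linear size, and then grow by a constant factor until two of them meet.
-/

set_option autoImplicit false

namespace Pool.Agent.Results.MP_97687e_co.ExpanderDecomposition

open Finset

theorem result :
    -- (1) decomposition of near-extremal graphs of large girth
    (∀ (k : ℕ), 1 ≤ k → ∀ (c ε : ℝ), 0 < c → 0 < ε →
      ∃ η : ℝ, 0 < η ∧ ∃ D N : ℕ, ∀ (V : Type) [Fintype V] [DecidableEq V] (G : SimpleGraph V)
        [DecidableRel G.Adj], N ≤ Fintype.card V → ((2 * k : ℕ) : ℕ∞) < G.egirth →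
        c * (Fintype.card V : ℝ) ^ (1 + 1 / (k : ℝ)) ≤ (G.edgeFinset.card : ℝ) →
        ∃ P : Finset (Finset V), (∀ U ∈ P, ∀ W ∈ P, U ≠ W → Disjoint U W) ∧
          (1 - ε) * (2 * (G.edgeFinset.card : ℝ)) ≤
            (∑ U ∈ P, ∑ x ∈ U, ((U.filter (fun y => G.Adj x y)).card : ℝ)) ∧
          ∀ U ∈ P, η * (Fintype.card V : ℝ) ≤ (U.card : ℝ) ∧
            (∀ x ∈ U, η * (Fintype.card V : ℝ) ^ (1 / (k : ℝ)) ≤
                ((U.filter (fun y => G.Adj x y)).card : ℝ) ∧
              (G.degree x : ℝ) ≤ η⁻¹ * (Fintype.card V : ℝ) ^ (1 / (k : ℝ))) ∧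
            (∀ S ⊆ U, 2 * S.card ≤ U.card →
              η * (Fintype.card V : ℝ) ^ (1 / (k : ℝ)) * S.card ≤
                ∑ x ∈ S, (((U \ S).filter (fun y => G.Adj x y)).card : ℝ)) ∧
            ∀ x ∈ U, ∀ y ∈ U, ∃ p : G.Walk x y, p.length ≤ D ∧ ∀ z ∈ p.support, z ∈ U) ∧
    -- (2) the expander form of the girth conjecture for the parameter `k`
    (∀ k : ℕ, 1 ≤ k →
      ((∃ c : ℝ, 0 < c ∧ ∃ N : ℕ, ∀ n ≥ N, ∃ G : SimpleGraph (Fin n),
          ((2 * k : ℕ) : ℕ∞) < G.egirth ∧
          c * (n : ℝ) ^ (1 + 1 / (k : ℝ)) ≤ (G.edgeSet.ncard : ℝ)) ↔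
        ∃ C : ℝ, ∀ d : ℕ, 1 ≤ d → ∃ (m : ℕ) (G : SimpleGraph (Fin m)), 0 < m ∧
          (m : ℝ) ≤ C * (d : ℝ) ^ k ∧ ((2 * k : ℕ) : ℕ∞) < G.egirth ∧
          (∀ x, (d : ℝ) ≤ ((G.neighborSet x).ncard : ℝ) ∧
            ((G.neighborSet x).ncard : ℝ) ≤ C * d) ∧
          (∀ S : Finset (Fin m), 2 * S.card ≤ m →
            (d : ℝ) * S.card ≤ ∑ x ∈ S, ((G.neighborSet x \ (S : Set (Fin m))).ncard : ℝ)) ∧
          ∀ x y, ∃ p : G.Walk x y, (p.length : ℝ) ≤ C)) ∧
    -- (3) the decomposition under a hereditary bound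
    (∀ α M c ε : ℝ, 0 < α → 0 < M → 0 < c → 0 < ε →
      ∃ η : ℝ, 0 < η ∧ ∀ (V : Type) [Fintype V] [DecidableEq V] (G : SimpleGraph V)
        [DecidableRel G.Adj],
        (∀ X : Finset V, ∑ x ∈ X, ((X.filter (fun y => G.Adj x y)).card : ℝ) ≤
          M * (X.card : ℝ) ^ (1 + α)) →
        c * (Fintype.card V : ℝ) ^ (1 + α) ≤
          ∑ x, ((univ.filter (fun y => G.Adj x y)).card : ℝ) →
        ∃ P : Finset (Finset V), (∀ U ∈ P, ∀ W ∈ P, U ≠ W → Disjoint U W) ∧
          (1 - ε) * (∑ x, ((univ.filter (fun y => G.Adj x y)).card : ℝ)) ≤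
            (∑ U ∈ P, ∑ x ∈ U, ((U.filter (fun y => G.Adj x y)).card : ℝ)) ∧
          ∀ U ∈ P, η * (Fintype.card V : ℝ) ≤ (U.card : ℝ) ∧
            (∀ x ∈ U, η * (Fintype.card V : ℝ) ^ α ≤
                ((U.filter (fun y => G.Adj x y)).card : ℝ) ∧
              ((univ.filter (fun y => G.Adj x y)).card : ℝ) ≤
                η⁻¹ * (Fintype.card V : ℝ) ^ α) ∧
            ∀ S ⊆ U, 2 * S.card ≤ U.card → η * (Fintype.card V : ℝ) ^ α * S.card ≤
              ∑ x ∈ S, (((U \ S).filter (fun y => G.Adj x y)).card : ℝ)) := by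
  refine ⟨fun k hk c ε hc hε => Pool.Agent.Q115.GX.girth_decomp k hk c ε hc hε,
    fun k hk => Pool.Agent.Q115.GX.girthConj_iff_expander hk, ?_⟩
  intro α M c ε hα hM hc hε
  obtain ⟨η, hη, h⟩ := Pool.Agent.Q115.GX.decomp α M c ε hα hM hc hε
  refine ⟨η, hη, ?_⟩
  intro V _ _ G _ her hsize
  obtain ⟨P, h1, h2, h3⟩ := h V G her hsize
  refine ⟨P, h1, h2, fun U hU => ?_⟩
  obtain ⟨q1, _, q3, q4⟩ := h3 U hU
  exact ⟨q1, q3, q4⟩

end Pool.Agent.Results.MP_97687e_co.ExpanderDecomposition
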