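import Pool.Agent.Q115.KR4

/-!
# MP_97687e_co: pointwise regularity of walks and counting of all cycles in graphs of large girth

The girth conjecture for the parameter `k` asks for graphs with `n` vertices, girth larger than `2 k`
and about `n ^ (1 + 1/k)` edges, that is, of average degree about `ρ = n ^ (1/k)`.  For every `k ≥ 2`
and `ε > 0` there are a constant `C` and constants `E l`, and for every `δ > 0` a number `M`, such
that every graph of girth larger than `2 k` on `n` vertices has a spanning subgraph `G'` with at most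
`ε n ^ (1 + 1/k)` edges less, in which

* all degrees are at most `C ρ`, and there are at most `(C ρ) ^ l / n` walks of length `l` between
  any two vertices, for all `l ≥ 2 k`;
* there is a partition into `M` classes such that
  - the adjacency matrix and the matrix of the densities between the classes differ by at most
    `δ ρ` in the operator norm;
  - for every `l > 2 k` the number of walks of length `l` from `x` to `y` is determined up to
    `δ (C ρ) ^ l / n` by the classes of `x` and `y`, for ALL pairs of vertices `x, y`;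
  - for every `l > 2 k` (all possible lengths) the number of cycles of length `l` is determined by
    the densities, up to `δ (C ρ) ^ l + E l ρ ^ (l - 1/2)`.
-/

set_option autoImplicit false

open Finset

namespace Pool.Agent.Results.MP_97687e_co.PointwiseRegularity

/-- the number of walks of length `l` from `x` to `y` -/
noncomputable def walkCount {V : Type} (G : SimpleGraph V) (l : ℕ) (x y : V) : ℕ :=
  {p : G.Walk x y | p.length = l}.ncard

/-- the number of cycles of length `l`, each counted with its starting points and orientations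
(`2 l` times) -/
noncomputable def cycleCount {V : Type} [Fintype V] (G : SimpleGraph V) (l : ℕ) : ℕ :=
  ∑ x, {p : G.Walk x x | p.IsCycle ∧ p.length = l}.ncard

/-- The matrix of densities of a partition `χ`: its entry at `(x, y)` is `e(X, Y) / (|X| |Y|)`, where
`X` and `Y` are the classes of `x` and `y` and `e(X, Y)` is the number of adjacent pairs in
`X × Y`. -/
noncomputable def density {V : Type} [Fintype V] [DecidableEq V] (G : SimpleGraph V)
    [DecidableRel G.Adj] {M : ℕ} (χ : V → Fin M) : Matrix V V ℝ :=
  Matrix.of fun x y =>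
    ((G.interedges (univ.filter (fun z => χ z = χ x)) (univ.filter (fun z => χ z = χ y))).card : ℝ) /
      (((univ.filter (fun z => χ z = χ x)).card : ℝ) *
        ((univ.filter (fun z => χ z = χ y)).card : ℝ))

theorem density_eq {V : Type} [Fintype V] [DecidableEq V] (G : SimpleGraph V)
    [DecidableRel G.Adj] {M : ℕ} (χ : V → Fin M) :
    density G χ = Pool.Agent.Q115.GW.bl χ (G.adjMatrix ℝ) := by
  ext x y
  rw [Pool.Agent.Q115.GW.bl_apply]
  unfold density
  rw [Matrix.of_apply]
  congr 1
  simp only [SimpleGraph.adjMatrix_apply]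
  rw [← sum_product', sum_boole]
  rfl

theorem result (k : ℕ) (hk : 2 ≤ k) (ε : ℝ) (hε : 0 < ε) : ∃ (C : ℝ) (E : ℕ → ℝ), 0 < C ∧
    ∀ δ : ℝ, 0 < δ → ∃ M : ℕ,
      ∀ (V : Type) [Fintype V] [DecidableEq V] (G : SimpleGraph V) [DecidableRel G.Adj],
      (∀ (v : V) (p : G.Walk v v), p.IsCycle → 2 * k < p.length) →
      ∀ ρ : ℝ, ρ = (Fintype.card V : ℝ) ^ (1 / (k : ℝ)) →
      ∃ (G' : SimpleGraph V) (_ : DecidableRel G'.Adj), G' ≤ G ∧
        -- few edges are removed
        (G.edgeFinset.card : ℝ) - (G'.edgeFinset.card : ℝ) ≤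
          ε * (Fintype.card V : ℝ) ^ (1 + 1 / (k : ℝ)) ∧
        -- degrees and pointwise upper bounds for the number of walks
        (∀ x, (G'.degree x : ℝ) ≤ C * ρ) ∧
        (∀ l, 2 * k ≤ l → ∀ x y, (walkCount G' l x y : ℝ) * Fintype.card V ≤ (C * ρ) ^ l) ∧
        ∃ χ : V → Fin M,
          -- regularity in the operator norm
          (∀ f g : V → ℝ, |∑ x, ∑ y, f x * (G'.adjMatrix ℝ x y - density G' χ x y) * g y| ≤
            δ * ρ * (Real.sqrt (∑ x, f x ^ 2) * Real.sqrt (∑ x, g x ^ 2))) ∧
          -- pointwise regularity of walks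
          (∀ l, 2 * k < l → ∀ x x' y y', χ x = χ x' → χ y = χ y' →
            |(walkCount G' l x y : ℝ) - (walkCount G' l x' y' : ℝ)| * Fintype.card V ≤
              δ * (C * ρ) ^ l) ∧
          -- counting of cycles
          ∀ l, 2 * k < l → |(cycleCount G' l : ℝ) - ((density G' χ) ^ l).trace| ≤
              δ * (C * ρ) ^ l + E l * ρ ^ ((l : ℝ) - 1 / 2) := by
  obtain ⟨C, E, hC, h⟩ := Pool.Agent.Q115.KR.main_girth k hk ε hε
  refine ⟨C, E, hC, fun δ hδ => ?_⟩
  obtain ⟨M, hM⟩ := h δ hδ
  refine ⟨M, ?_⟩
  intro V _ _ G _ hg ρ hρ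
  obtain ⟨G', hdec, h1, h2, h3, h4, χ, h5, h6, h7⟩ := hM V G hg
  subst hρ
  refine ⟨G', hdec, h1, h2, h3, h4, χ, ?_, h6, ?_⟩
  · intro f g
    rw [density_eq]
    exact h5 f g
  · intro l hl
    rw [density_eq, ← Real.rpow_mul (Nat.cast_nonneg _), one_div_mul_eq_div]
    exact h7 l hl

end Pool.Agent.Results.MP_97687e_co.PointwiseRegularity
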