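import Pool.Agent.Q115.GY3

/-!
# Graphs of large girth: bounded Schatten norm and weak regularity at the conjectured density

The girth conjecture asks for graphs with `n` vertices, girth greater than `2 k` and about
`n ^ (1 + 1 / k)` edges.

* (1) For every `k ≥ 1` and `ε > 0` there is `M` such that the vertex set of every graph with `n`
  vertices and girth greater than `2 k` has a partition into at most `M` classes such that for all
  vertex sets `S` and `T` the number of adjacent pairs in `S × T` differs by at most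
  `ε n ^ (1 + 1 / k)` from the number predicted by the densities between the classes.
* (2) If all degrees of a graph with `n` vertices and girth greater than `2 k` are at most
  `D > 0` then `∑ μ ^ (2 k) ≤ (k + 1) ^ 2 (4 D) ^ k n` for its eigenvalues `μ`.
* (3) If all degrees are at most `K n ^ (1 / k)`, at most `(k + 1) ^ 2 (4 K / ε ^ 2) ^ k`
  eigenvalues have absolute value at least `ε n ^ (1 / k)`.

Proof: a walk with `m ≤ k` steps between two vertices reduces to a nonbacktracking walk, which is
unique; induction on `m` gives `(A ^ m) x y ≤ (2 √D) ^ m / √D ^ l` if that walk has `l` steps, so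
`tr A ^ (2 k) = ∑ ((A ^ k) x y) ^ 2 ≤ (k + 1) ^ 2 (4 D) ^ k n`. The few large eigenvalues are
handled by classes on which all their eigenvectors are almost constant, the small eigenvalues are
negligible in the cut norm, and so are the vertices of large degree.
-/

set_option autoImplicit false

namespace Pool.Agent.Results.MP_97687e_co.WeakRegularity

open Finset

theorem result :
    -- (1) weak regularity at the scale `n ^ (1 + 1 / k)`
    (∀ (k : ℕ), 1 ≤ k → ∀ ε : ℝ, 0 < ε →
      ∃ M : ℕ, ∀ (V : Type) [Fintype V] [DecidableEq V] (G : SimpleGraph V) [DecidableRel G.Adj],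
        ((2 * k : ℕ) : ℕ∞) < G.egirth →
        ∃ χ : V → Fin M, ∀ S T : Finset V,
          |((G.interedges S T).card : ℝ) - ∑ a : Fin M, ∑ b : Fin M,
            ((G.interedges (univ.filter (fun x => χ x = a))
              (univ.filter (fun x => χ x = b))).card : ℝ) *
            ((S.filter (fun x => χ x = a)).card : ℝ) * ((T.filter (fun x => χ x = b)).card : ℝ) /
            (((univ.filter (fun x => χ x = a)).card : ℝ) *
              ((univ.filter (fun x => χ x = b)).card : ℝ))| ≤
          ε * (Fintype.card V : ℝ) ^ (1 + 1 / (k : ℝ))) ∧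
    -- (2) the Schatten norm
    (∀ (V : Type) [Fintype V] [DecidableEq V] (G : SimpleGraph V) [DecidableRel G.Adj] (k : ℕ),
      ((2 * k : ℕ) : ℕ∞) < G.egirth → ∀ D : ℝ, 0 < D → (∀ x, (G.degree x : ℝ) ≤ D) →
      ∀ hA : (G.adjMatrix ℝ).IsHermitian,
        ∑ i, hA.eigenvalues i ^ (2 * k) ≤
          ((k : ℝ) + 1) ^ 2 * (4 * D) ^ k * (Fintype.card V : ℝ)) ∧
    -- (3) the number of large eigenvalues
    (∀ (V : Type) [Fintype V] [DecidableEq V] (G : SimpleGraph V) [DecidableRel G.Adj] (k : ℕ),
      1 ≤ k → ((2 * k : ℕ) : ℕ∞) < G.egirth → ∀ K ε : ℝ, 0 < K → 0 < ε →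
      (∀ x, (G.degree x : ℝ) ≤ K * (Fintype.card V : ℝ) ^ (1 / (k : ℝ))) →
      ∀ hA : (G.adjMatrix ℝ).IsHermitian,
        ((univ.filter (fun i =>
          ε * (Fintype.card V : ℝ) ^ (1 / (k : ℝ)) ≤ |hA.eigenvalues i|)).card : ℝ) ≤
          ((k : ℝ) + 1) ^ 2 * (4 * K / ε ^ 2) ^ k) := by
  refine ⟨fun k hk ε hε => Pool.Agent.Q115.GY.weak_regularity k hk ε hε, ?_, ?_⟩
  · intro V _ _ G _ k hg D hD0 hD hA
    rw [Pool.Agent.Q115.GY.sum_eig hA k]
    refine (Pool.Agent.Q115.GY.frob_pow G ((Pool.TH815.GR.egirth_iff G _).1 hg) D hD0 hD).trans ?_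
    apply le_of_eq
    ring
  · intro V _ _ G _ k hk hg K ε hK hε hD hA
    rcases Nat.eq_zero_or_pos (Fintype.card V) with h0 | hpos
    · have : (univ : Finset V) = ∅ := by
        rw [← card_eq_zero, card_univ, h0]
      rw [this, filter_empty, card_empty, Nat.cast_zero]
      positivity
    have hg' := (Pool.TH815.GR.egirth_iff G _).1 hg
    have h1 := Pool.Agent.Q115.GY.eig_count G hk hg' K hK hD hA hpos
    set n : ℝ := (Fintype.card V : ℝ) with hn
    have hnpos : 0 < n := by rw [hn]; exact_mod_cast hpos
    set r : ℝ := n ^ (1 / (k : ℝ)) with hr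
    have hrpos : 0 < r := by positivity
    set I := univ.filter (fun i => ε * r ≤ |hA.eigenvalues i|) with hI
    have h2 : (I.card : ℝ) * (ε * r) ^ (2 * k) ≤ ∑ i, hA.eigenvalues i ^ (2 * k) := by
      calc (I.card : ℝ) * (ε * r) ^ (2 * k) = ∑ i ∈ I, (ε * r) ^ (2 * k) := by
            rw [sum_const, nsmul_eq_mul]
        _ ≤ ∑ i ∈ I, hA.eigenvalues i ^ (2 * k) := by
            apply sum_le_sum
            intro i hi
            rw [hI, mem_filter] at hi
            calc (ε * r) ^ (2 * k) ≤ |hA.eigenvalues i| ^ (2 * k) :=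
                  pow_le_pow_left₀ (by positivity) hi.2 _
              _ = hA.eigenvalues i ^ (2 * k) := by rw [pow_mul, sq_abs, ← pow_mul]
        _ ≤ ∑ i, hA.eigenvalues i ^ (2 * k) := by
            apply sum_le_sum_of_subset_of_nonneg (subset_univ _)
            intro i _ _
            rw [pow_mul]
            positivity
    have h3 := h2.trans h1
    rw [mul_pow, ← mul_assoc] at h3
    have h4 : (I.card : ℝ) * ε ^ (2 * k) ≤ ((k : ℝ) + 1) ^ 2 * (4 * K) ^ k :=
      le_of_mul_le_mul_right h3 (by positivity)
    rw [div_pow, ← pow_mul, ← mul_div_assoc, le_div_iff₀ (by positivity)]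
    exact h4

end Pool.Agent.Results.MP_97687e_co.WeakRegularity
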